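import Mathlib
import Pool.Agent.H55.FW.StmT

set_option autoImplicit false

/-!
# Statements of project FX (helper55, MP_b56c98_ag): simple points are only used in low degrees
-/

namespace Pool.Agent.H55.FX

open Pool.Agent.W608.PR Pool.Agent.H55.FU Pool.Agent.H55.FV Pool.Agent.H55.FW

/-- The number of simple points which guarantees emptiness in all degrees. -/
def Qz (E m κ L e2 : ℕ) : ℕ := dm E L + (e2 + 1 - L) * Rg E m κ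

/-- In degrees `f ≥ e2` there is room for `Rg` irregular points. -/
def Ph (E m κ L e2 : ℕ) : Prop :=
  L ≤ e2 ∧ ∀ f, e2 ≤ f →
    (m - 1) * Nn E (f + 1) + (m + E) * (Rg E m κ * sz E m + κ) ≤ (m + E) * Nn E f

/-- The numerical conditions for the degree `d`. -/
def Goodx (E m κ W c c' L e2 d : ℕ) : Prop :=
  L + m ≤ d ∧ (∀ e, e < d → d < e + m → Cndw E m κ W c c' L e) ∧
    Sz (E + 1) m * Qz E m κ L e2 < dm E d ∧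
    Qz E m κ L e2 * sz E m + κ + Xg E m c c' L d ≤ Nn E d

/-- The base inequalities for multiplicities at most `3`. -/
def Base3x (E k3 k2 k1 c c' L D W e2 : ℕ) : Prop :=
  3 ≤ L ∧ L + 3 ≤ D ∧ L ≤ e2 ∧
  L * ((E + 2) * k1) ≤ (E + 1) * ((L - 1) * Nn E (L - 1)) ∧
  (L + 1) * ((E + 3) * k2) ≤ (E + 1) * ((L - 1) * Nn E L) ∧
  (L + 2) * ((E + 3) * k3) ≤ (E + 1) * (L * Nn E (L + 1)) ∧
  (e2 + 1) * ((E + 3) * (Rg E 3 k3 * sz E 3 + k3)) ≤ (E + 1) * ((e2 - 1) * Nn E e2) ∧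
  (D - 1) * ((E + 3) * (W * sz E 3 + k3 + Xg E 3 c c' L (D - 1))) ≤
    (E + 1) * ((D - 3) * Nn E (D - 2)) ∧
  (E + 4) * (W * sz E 3) ≤ (D - 3) * Nn E (D - 1) ∧
  Sz (E + 1) 3 * Qz E 3 k3 L e2 < dm E D ∧
  Qz E 3 k3 L e2 * sz E 3 + k3 + Xg E 3 c c' L D ≤ Nn E D

/-- (base3x) as `Pool.Agent.H40.FW.base3w` -/
def S_base3x : Prop :=
  ∀ (E : ℕ) (κ : ℕ → ℕ) (c c' L D W e2 : ℕ), 1 ≤ E →
    Base3x E (κ 3) (κ 2) (κ 1) c c' L D W e2 →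
    Rooms E 3 κ L ∧ Ph E 3 (κ 3) L e2 ∧ ∀ d, D ≤ d → Goodx E 3 (κ 3) W c c' L e2 d

/-- (row1) finitely many dimensions: `(E, L, D, e2)` -/
def S_row1 : Prop :=
  ∀ p ∈ [(2, 4, 31, 14), (3, 4, 22, 12), (4, 4, 18, 11), (5, 4, 16, 11), (6, 4, 15, 11),
    (7, 4, 14, 10), (8, 4, 13, 10), (9, 4, 13, 10), (10, 5, 13, 10)],
    Base3x p.1 (FE.Kc p.1 3) (FE.Kc p.1 2) (FE.Kc p.1 1)
      (cS p.1 3) (cT p.1 3) p.2.1 p.2.2.1 (Wk p.1) p.2.2.2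

/-- (row2) finitely many dimensions -/
def S_row2 : Prop :=
  ∀ p ∈ [(11, 5, 13, 10), (12, 5, 12, 10), (13, 5, 12, 10)],
    Base3x p.1 (kS p.1 3) (kS p.1 2) (kS p.1 1) (cS p.1 3) (cT p.1 3) p.2.1 p.2.2.1 (Wm p.1 3)
      p.2.2.2

/-- (row3) -/
def S_row3 : Prop :=
  ∀ E : ℕ, 14 ≤ E → Base3x E (kS E 3) (kS E 2) (kS E 1) (cS E 3) (cT E 3) 4 12 (Wm E 3) 10

/-- (row4) -/
def S_row4 : Prop :=
  ∀ E : ℕ, 16 ≤ E → Base3x E (kS E 3) (kS E 2) (kS E 1) (cS E 3) (cT E 3) 4 11 (Wm E 3) 10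

/-- (row5) -/
def S_row5 : Prop :=
  ∀ E : ℕ, 22 ≤ E → Base3x E (kS E 3) (kS E 2) (kS E 1) (cS E 3) (cT E 3) 4 10 (Wm E 3) 9

/-- (row6) -/
def S_row6 : Prop :=
  ∀ E : ℕ, 40 ≤ E → Base3x E (kS E 3) (kS E 2) (kS E 1) (cS E 3) (cT E 3) 4 9 (Wm E 3) 9

/-- (row7) -/
def S_row7 : Prop :=
  ∀ E : ℕ, 310 ≤ E → Base3x E (kS E 3) (kS E 2) (kS E 1) (cS E 3) (cT E 3) 4 8 (Wm E 3) 8

end Pool.Agent.H55.FX
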