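import Mathlib
import Pool.Agent.H55.FV.Tl
import Pool.Agent.H55.FX.Stm

set_option autoImplicit false

/-!
# Emptiness if there are many simple points in general position, refined
-/

namespace Pool.Agent.H55.FX

open Pool.Agent.W608.PR Pool.Agent.H55.FU Pool.Agent.H55.FV

theorem e1q : ∀ (K : Type) [Field K] [Infinite K] (E m : ℕ) (κ : ℕ → ℕ) (L : ℕ), TPs K E m κ →
    Rooms E m κ L → 1 ≤ m →
    ∀ (ι : Type) [Fintype ι] [DecidableEq ι] (e : ℕ) (S : Finset ι) (A : ι → Finset ℕ)
      (B : Finset ι), (∀ i, A i ⊆ Finset.Icc 1 m) →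
      (∀ i, i ∉ S → A i = Finset.Icc 1 (mx (A i))) →
      (∀ i ∈ B, i ∉ S ∧ A i = {1}) → (L + 1 ≤ e → ∑ i ∈ S, sz E (mx (A i)) + κ m ≤ Nn E e) →
      dm E e ≤ ∑ i, cn E (A i) → dm E L + (e - L) * Rg E m (κ m) ≤ B.card →
      CE E K (fun i => i ∈ S) (fun i => prof (A i)) e := by
  classical
  intro K _ _ E m κ L hP hR hm ι _ _ e
  induction e with
  | zero =>
    intro S A B hA hin hB hT htot hq
    refine CE.simple (B := B) (fun i hi => ⟨(hB i hi).1, ?_⟩) ?_
    · rw [(hB i hi).2, prof_one_zero]
    · have h1 := dm_mono E (Nat.zero_le L)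
      unfold dm at h1 hq
      omega
  | succ e ih =>
    intro S A B hA hin hB hT htot hq
    by_cases heL : e + 1 ≤ L
    · refine CE.simple (B := B) (fun i hi => ⟨(hB i hi).1, ?_⟩) ?_
      · rw [(hB i hi).2, prof_one_zero]
      · have h1 := dm_mono E heL
        unfold dm at h1 hq
        omega
    push Not at heL
    have hT := hT (by omega)
    have hmL := hR.2.2
    obtain ⟨T, hTd⟩ : ∃ T, T = ∑ i ∈ S, sz E (mx (A i)) := ⟨_, rfl⟩
    obtain ⟨J, hJ⟩ : ∃ J : Finset ι, J = (S ∪ B)ᶜ := ⟨_, rfl⟩
    have hJm : ∀ i, i ∈ J ↔ i ∉ S ∧ i ∉ B := by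
      intro i
      rw [hJ, Finset.mem_compl, Finset.mem_union, not_or]
    rw [← hTd] at hT
    rcases le_or_gt (∑ i ∈ J, sz E (mx (A i))) (Nn E (e + 1) - κ m - T) with hc | hc
    · -- all the other points are moved
      have hBc : Bᶜ = S ∪ J := by
        ext i
        rw [Finset.mem_compl, Finset.mem_union, hJm]
        constructor
        · intro h
          by_cases hS : i ∈ S
          · exact Or.inl hS
          · exact Or.inr ⟨hS, h⟩
        · rintro (h | h) h'
          · exact (hB i h').1 h
          · exact h.2 h'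
      have hdis : Disjoint S J := by
        rw [Finset.disjoint_left]
        intro i hi hi'
        exact ((hJm i).1 hi').1 hi
      have h1 := tlv K E m κ L hP hR ι m (e + 1) A B le_rfl (fun i hi => (hB i hi).2)
        (fun i _ => hA i)
        (fun _ => by
          rw [hBc, Finset.sum_union hdis, ← hTd]
          omega) (by omega) htot
      exact h1.mono (fun i hi => Finset.mem_compl.2 fun h => (hB i h).1 hi) fun i s => le_rfl
    · obtain ⟨J1, hJ1, hJ1a, hJ1b⟩ := greedy (fun i => sz E (mx (A i))) (sz E m) J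
        (fun i _ => sz_mono E (mx_le (hA i))) (Nn E (e + 1) - κ m - T) hc.le
      have hq1 : κ m + sz E m ≤ B.card := by
        have h1 : (e + 1 - L) * Rg E m (κ m) = (e - L) * Rg E m (κ m) + Rg E m (κ m) := by
          rw [show e + 1 - L = (e - L) + 1 by omega]
          ring
        have h2 : Rg E m (κ m) = κ m + sz E m := rfl
        omega
      obtain ⟨B1, hB1, hB1c⟩ := Finset.exists_subset_card_eq
        (show Nn E (e + 1) - T - ∑ i ∈ J1, sz E (mx (A i)) ≤ B.card by omega)
      obtain ⟨u, hu⟩ : ∃ u : ι → ℕ, ∀ i, u i = if i ∈ S ∪ J1 then mx (A i) else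
        (if i ∈ B1 then 1 else 0) := ⟨_, fun _ => rfl⟩
      have hJ1S : Disjoint S J1 := by
        rw [Finset.disjoint_left]
        intro i hi hi'
        exact ((hJm i).1 (hJ1 hi')).1 hi
      have hBn : ∀ i ∈ B, i ∉ S ∪ J1 := by
        intro i hi h
        rcases Finset.mem_union.1 h with h | h
        · exact (hB i hi).1 h
        · exact ((hJm i).1 (hJ1 h)).2 hi
      have huF : ∀ i ∈ S ∪ J1, u i = mx (A i) := fun i hi => by
        rw [hu, if_pos hi]
      have huS : ∀ i ∈ S, u i = mx (A i) := fun i hi => huF i (Finset.mem_union_left _ hi)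
      have huJ : ∀ i ∈ J1, u i = mx (A i) := fun i hi => huF i (Finset.mem_union_right _ hi)
      have huB1 : ∀ i ∈ B1, u i = 1 := fun i hi => by
        rw [hu, if_neg (hBn i (hB1 hi)), if_pos hi]
      have hu0 : ∀ i, i ∉ S → i ∉ J1 → i ∉ B1 → u i = 0 := fun i h1 h2 h3 => by
        rw [hu, if_neg (by rw [Finset.mem_union, not_or]; exact ⟨h1, h2⟩), if_neg h3]
      have hreg : ∀ i, u i ≠ 0 → u i = mx (A i) := by
        intro i hi
        by_cases h1 : i ∈ S
        · exact huS i h1
        by_cases h2 : i ∈ J1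
        · exact huJ i h2
        by_cases h3 : i ∈ B1
        · rw [huB1 i h3, (hB i (hB1 h3)).2, mx_one]
        · exact absurd (hu0 i h1 h2 h3) hi
      have hFsum : ∑ i ∈ S ∪ J1, sz E (u i) = T + ∑ i ∈ J1, sz E (mx (A i)) := by
        rw [Finset.sum_congr rfl fun i hi => by rw [huF i hi], Finset.sum_union hJ1S, ← hTd]
      have hsum : ∑ i, sz E (u i) = Nn E (e + 1) := by
        have h1 : ∀ i ∈ Finset.univ, sz E (u i) =
            (if i ∈ S ∪ J1 then sz E (mx (A i)) else 0) + (if i ∈ B1 then 1 else 0) := by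
          intro i _
          by_cases h : i ∈ S ∪ J1
          · have h2 : i ∉ B1 := fun h3 => hBn i (hB1 h3) h
            rw [hu, if_pos h, if_pos h, if_neg h2, add_zero]
          · rw [hu, if_neg h, if_neg h, zero_add]
            split_ifs
            · exact sz_one E
            · exact sz_zero E
        rw [Finset.sum_congr rfl h1, Finset.sum_add_distrib, Finset.sum_ite_mem,
          Finset.sum_ite_mem, Finset.univ_inter, Finset.univ_inter, Finset.sum_union hJ1S,
          Finset.sum_const, smul_eq_mul, mul_one, hB1c, ← hTd]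
        have h9 : (fun i => sz E (mx (A i))) = fun i => sz E (mx (A i)) := rfl
        omega
      have hmem : ∀ i, u i ∈ A i ∨ u i = 0 := by
        intro i
        by_cases h : u i = 0
        · exact Or.inr h
        · left
          rw [hreg i h]
          rcases mx_mem_or (A i) with h1 | h1
          · exact h1
          · rw [hreg i h] at h
            exact absurd h1 h
      have hum : ∀ i, u i ≤ mx (A i) := fun i => by
        by_cases h : u i = 0
        · rw [h]
          exact Nat.zero_le _
        · exact le_of_eq (hreg i h)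
      refine Pool.Agent.H55.FE.stepT (m := m) (u := u) hA hin huS (fun i _ => hum i) ?_ ?_
      · refine hP m hm le_rfl ι u (S ∪ J1) (e + 1) (fun i => (hum i).trans (mx_le (hA i))) (fun i hi => ?_)
          ?_ (le_of_eq hsum.symm)
        · rw [hu, if_neg hi]
          split_ifs <;> omega
        · rw [hFsum]
          omega
      · refine ih _ (fun i => (A i).erase (u i)) (B \ B1)
          (fun i => (Finset.erase_subset _ _).trans (hA i)) (fun i hi => ?_) (fun i hi => ?_) ?_
          ?_ ?_
        · rw [Finset.mem_union, not_or, Finset.mem_filter, not_and, not_not] at hi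
          have h0 := hi.2 (Finset.mem_univ _)
          show (A i).erase (u i) = Finset.Icc 1 (mx ((A i).erase (u i)))
          rw [h0, erase_zero (hA i)]
          exact hin i hi.1
        · rw [Finset.mem_sdiff] at hi
          have h1 := hBn i hi.1
          rw [Finset.mem_union, not_or] at h1
          have h0 := hu0 i h1.1 h1.2 hi.2
          refine ⟨?_, ?_⟩
          · rw [Finset.mem_union, not_or, Finset.mem_filter, not_and, not_not]
            exact ⟨h1.1, fun _ => h0⟩
          · show (A i).erase (u i) = {1}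
            rw [h0, erase_zero (hA i), (hB i hi.1).2]
        · have h1 := Pool.Agent.H55.FE.T_nextF (E := E) (S := S) (F := S ∪ J1) (u := u) hA
            Finset.subset_union_left huF (fun i hi hne => by
              have h2 : i ∈ B1 := by
                by_contra h3
                rw [Finset.mem_union, not_or] at hi
                exact hne (hu0 i hi.1 hi.2 h3)
              exact ⟨(hB i (hB1 h2)).2, huB1 i h2⟩)
          intro hLe
          refine roomv (κ' := κ m) h1 ?_ hm (hR.2.1 e hLe)
          rw [hFsum]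
          omega
        · have h1 := tot_next (E := E) hmem
          have h2 := dm_succ E e
          show dm E e ≤ ∑ i, cn E ((A i).erase (u i))
          omega
        · have h1 : (B \ B1).card = B.card - B1.card := Finset.card_sdiff_of_subset hB1
          have h2 : (e + 1 - L) * Rg E m (κ m) = (e - L) * Rg E m (κ m) + Rg E m (κ m) := by
            rw [show e + 1 - L = (e - L) + 1 by omega]
            ring
          have h3 : Rg E m (κ m) = κ m + sz E m := rfl
          omega

/-- One step, `F3` being filled with simple conditions. -/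
theorem stepF {K : Type} [Field K] [Infinite K] {E m κ : ℕ} (hP : TPk K E m κ) (_hm : 1 ≤ m)
    {ι : Type} [Fintype ι] [DecidableEq ι] {e : ℕ} {S J1 F3 : Finset ι} {A : ι → Finset ℕ}
    (hA : ∀ i, A i ⊆ Finset.Icc 1 m) (hin : ∀ i, i ∉ S → A i = Finset.Icc 1 (mx (A i)))
    (hJ : ∀ i ∈ J1, i ∉ S) (hF : ∀ i ∈ F3, i ∉ S ∪ J1 ∧ (A i).Nonempty)
    (hc : ∑ i ∈ S, sz E (mx (A i)) + ∑ i ∈ J1, sz E (mx (A i)) + F3.card = Nn E (e + 1))
    (hroom : ∑ i ∈ S, sz E (mx (A i)) + ∑ i ∈ J1, sz E (mx (A i)) + κ ≤ Nn E (e + 1)) :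
    ∃ u : ι → ℕ, (∀ i ∈ S ∪ J1, u i = mx (A i)) ∧ (∀ i ∈ F3, u i = 1) ∧
      (∀ i, i ∉ S ∪ J1 → i ∉ F3 → u i = 0) ∧ (∀ i, u i ∈ A i ∨ u i = 0) ∧
      ∑ i, sz E (u i) = Nn E (e + 1) ∧
      (CE E K (fun i => i ∈ S ∪ Finset.univ.filter (fun i => u i ≠ 0))
        (fun i => prof ((A i).erase (u i))) e → CE E K (fun i => i ∈ S) (fun i => prof (A i)) (e + 1)) := by
  classical
  obtain ⟨u, hu⟩ : ∃ u : ι → ℕ, ∀ i, u i = if i ∈ S ∪ J1 then mx (A i) else
    (if i ∈ F3 then 1 else 0) := ⟨_, fun _ => rfl⟩
  have hJ1S : Disjoint S J1 := by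
    rw [Finset.disjoint_left]
    intro i hi hi'
    exact hJ i hi' hi
  have huF : ∀ i ∈ S ∪ J1, u i = mx (A i) := fun i hi => by rw [hu, if_pos hi]
  have huS : ∀ i ∈ S, u i = mx (A i) := fun i hi => huF i (Finset.mem_union_left _ hi)
  have hu3 : ∀ i ∈ F3, u i = 1 := fun i hi => by rw [hu, if_neg (hF i hi).1, if_pos hi]
  have hu0 : ∀ i, i ∉ S ∪ J1 → i ∉ F3 → u i = 0 := fun i h1 h2 => by
    rw [hu, if_neg h1, if_neg h2]
  have hmxpos : ∀ i ∈ F3, 1 ≤ mx (A i) := fun i hi =>
    (Finset.mem_Icc.1 (hA i (mx_mem (hF i hi).2))).1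
  have hsum : ∑ i, sz E (u i) = Nn E (e + 1) := by
    have h1 : ∀ i ∈ Finset.univ, sz E (u i) =
        (if i ∈ S ∪ J1 then sz E (mx (A i)) else 0) + (if i ∈ F3 then 1 else 0) := by
      intro i _
      by_cases h : i ∈ S ∪ J1
      · have h2 : i ∉ F3 := fun h3 => (hF i h3).1 h
        rw [hu, if_pos h, if_pos h, if_neg h2, add_zero]
      · rw [hu, if_neg h, if_neg h, zero_add]
        split_ifs
        · exact sz_one E
        · exact sz_zero E
    rw [Finset.sum_congr rfl h1, Finset.sum_add_distrib, Finset.sum_ite_mem,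
      Finset.sum_ite_mem, Finset.univ_inter, Finset.univ_inter, Finset.sum_union hJ1S,
      Finset.sum_const, smul_eq_mul, mul_one]
    exact hc
  have hmem : ∀ i, u i ∈ A i ∨ u i = 0 := by
    intro i
    by_cases h1 : i ∈ S ∪ J1
    · rw [huF i h1]
      exact mx_mem_or _
    by_cases h3 : i ∈ F3
    · left
      have h4 := (hF i h3).1
      rw [Finset.mem_union, not_or] at h4
      rw [hu3 i h3, hin i h4.1, Finset.mem_Icc]
      exact ⟨le_rfl, hmxpos i h3⟩
    · exact Or.inr (hu0 i h1 h3)
  have hum : ∀ i, u i ≤ mx (A i) := by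
    intro i
    by_cases h1 : i ∈ S ∪ J1
    · exact (huF i h1).le
    by_cases h3 : i ∈ F3
    · rw [hu3 i h3]
      exact hmxpos i h3
    · rw [hu0 i h1 h3]
      exact Nat.zero_le _
  refine ⟨u, huF, hu3, hu0, hmem, hsum, fun hR => ?_⟩
  refine Pool.Agent.H55.FE.stepT (u := u) hA hin huS (fun i _ => hum i) ?_ hR
  refine hP ι u (S ∪ J1) (e + 1) (fun i => (hum i).trans (mx_le (hA i))) (fun i hi => ?_) ?_
    (le_of_eq hsum.symm)
  · rw [hu, if_neg hi]
    split_ifs <;> omega
  · rw [Finset.sum_congr rfl fun i hi => by rw [huF i hi], Finset.sum_union hJ1S]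
    exact hroom

/-- Emptiness with a fixed number of simple points. -/
theorem e1x (K : Type) [Field K] [Infinite K] (E m : ℕ) (κ : ℕ → ℕ) (L e2 : ℕ) (hP : TPs K E m κ)
    (hR : Rooms E m κ L) (hph : Ph E m (κ m) L e2) (hm : 1 ≤ m) (ι : Type) [Fintype ι]
    [DecidableEq ι] (e : ℕ) : ∀ (S : Finset ι) (A : ι → Finset ℕ)
      (B : Finset ι), (∀ i, A i ⊆ Finset.Icc 1 m) →
      (∀ i, i ∉ S → A i = Finset.Icc 1 (mx (A i))) →
      (∀ i ∈ B, i ∉ S ∧ A i = {1}) → (L + 1 ≤ e → ∑ i ∈ S, sz E (mx (A i)) + κ m ≤ Nn E e) →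
      dm E e ≤ ∑ i, cn E (A i) → Qz E m (κ m) L e2 ≤ B.card →
      CE E K (fun i => i ∈ S) (fun i => prof (A i)) e := by
  classical
  obtain ⟨hph1, hph2⟩ := hph
  induction e with
  | zero =>
    intro S A B hA hin hB hT htot hq
    refine e1q K E m κ L hP hR hm ι 0 S A B hA hin hB hT htot (le_trans ?_ hq)
    unfold Qz
    exact Nat.add_le_add_left (Nat.mul_le_mul_right _ (by omega)) _
  | succ e ih =>
    intro S A B hA hin hB hT htot hq
    by_cases he : e + 1 ≤ e2 + 1
    · refine e1q K E m κ L hP hR hm ι (e + 1) S A B hA hin hB hT htot (le_trans ?_ hq)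
      unfold Qz
      exact Nat.add_le_add_left (Nat.mul_le_mul_right _ (by omega)) _
    have hT := hT (by omega)
    obtain ⟨T, hTd⟩ : ∃ T, T = ∑ i ∈ S, sz E (mx (A i)) := ⟨_, rfl⟩
    obtain ⟨J, hJ⟩ : ∃ J : Finset ι, J = (S ∪ B)ᶜ := ⟨_, rfl⟩
    have hJm : ∀ i, i ∈ J ↔ i ∉ S ∧ i ∉ B := by
      intro i
      rw [hJ, Finset.mem_compl, Finset.mem_union, not_or]
    rw [← hTd] at hT
    rcases le_or_gt (∑ i ∈ J, sz E (mx (A i))) (Nn E (e + 1) - κ m - T) with hc | hc
    · -- all the other points are moved
      have hBc : Bᶜ = S ∪ J := by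
        ext i
        rw [Finset.mem_compl, Finset.mem_union, hJm]
        constructor
        · intro h
          by_cases hS : i ∈ S
          · exact Or.inl hS
          · exact Or.inr ⟨hS, h⟩
        · rintro (h | h) h'
          · exact (hB i h').1 h
          · exact h.2 h'
      have hdis : Disjoint S J := by
        rw [Finset.disjoint_left]
        intro i hi hi'
        exact ((hJm i).1 hi').1 hi
      have h1 := tlv K E m κ L hP hR ι m (e + 1) A B le_rfl (fun i hi => (hB i hi).2)
        (fun i _ => hA i)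
        (fun _ => by
          rw [hBc, Finset.sum_union hdis, ← hTd]
          omega) (by omega) htot
      exact h1.mono (fun i hi => Finset.mem_compl.2 fun h => (hB i h).1 hi) fun i s => le_rfl
    · have hszJ : ∀ i, sz E (mx (A i)) ≤ sz E m := fun i => sz_mono E (mx_le (hA i))
      obtain ⟨J1, hJ1, hJ1a, hJ1b⟩ := greedy (fun i => sz E (mx (A i))) (sz E m) J
        (fun i _ => hszJ i) (Nn E (e + 1) - κ m - T) hc.le
      obtain ⟨g, hg⟩ : ∃ g, g = Nn E (e + 1) - T - ∑ i ∈ J1, sz E (mx (A i)) := ⟨_, rfl⟩
      have hgT : T + ∑ i ∈ J1, sz E (mx (A i)) + g = Nn E (e + 1) := by omega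
      have hgR : g ≤ Rg E m (κ m) := by
        have h2 : Rg E m (κ m) = κ m + sz E m := rfl
        omega
      have hJ1S : ∀ i ∈ J1, i ∉ S := fun i hi => ((hJm i).1 (hJ1 hi)).1
      have hPe := hph2 e (by omega)
      obtain ⟨J2, hJ2⟩ : ∃ J2 : Finset ι, J2 = (J \ J1).filter (fun i => (A i).Nonempty) :=
        ⟨_, rfl⟩
      have hJ2m : ∀ i, i ∈ J2 ↔ (i ∈ J ∧ i ∉ J1) ∧ (A i).Nonempty := by
        intro i
        rw [hJ2, Finset.mem_filter, Finset.mem_sdiff]
      rcases le_or_gt g J2.card with hg2 | hg2
      · -- the gap is filled with other points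
        obtain ⟨F3, hF3, hF3c⟩ := Finset.exists_subset_card_eq hg2
        have hF3m : ∀ i ∈ F3, i ∉ S ∪ J1 ∧ (A i).Nonempty := by
          intro i hi
          have h1 := (hJ2m i).1 (hF3 hi)
          rw [Finset.mem_union, not_or]
          exact ⟨⟨((hJm i).1 h1.1.1).1, h1.1.2⟩, h1.2⟩
        obtain ⟨u, huF, hu3, hu0, hmem, hsum, hstep⟩ := stepF (hP m hm le_rfl) hm (e := e)
          hA hin hJ1S hF3m (by rw [← hTd, hF3c]; exact hgT) (by rw [← hTd]; omega)
        have hBu : ∀ i ∈ B, u i = 0 := by
          intro i hi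
          refine hu0 i ?_ fun h => ?_
          · rw [Finset.mem_union, not_or]
            exact ⟨(hB i hi).1, fun h => ((hJm i).1 (hJ1 h)).2 hi⟩
          · exact ((hJm i).1 ((hJ2m i).1 (hF3 h)).1.1).2 hi
        refine hstep (ih _ (fun i => (A i).erase (u i)) B
          (fun i => (Finset.erase_subset _ _).trans (hA i)) (fun i hi => ?_) (fun i hi => ?_)
          (fun _ => ?_) ?_ hq)
        · rw [Finset.mem_union, not_or, Finset.mem_filter, not_and, not_not] at hi
          have h0 := hi.2 (Finset.mem_univ _)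
          show (A i).erase (u i) = Finset.Icc 1 (mx ((A i).erase (u i)))
          rw [h0, erase_zero (hA i)]
          exact hin i hi.1
        · refine ⟨?_, ?_⟩
          · rw [Finset.mem_union, not_or, Finset.mem_filter, not_and, not_not]
            exact ⟨(hB i hi).1, fun _ => hBu i hi⟩
          · show (A i).erase (u i) = {1}
            rw [hBu i hi, erase_zero (hA i), (hB i hi).2]
        · have hTn := T_next (E := E) (S := S) (u := u) hA
            (fun i hi => huF i (Finset.mem_union_left _ hi)) F3 (fun i hi hne h3 => by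
            by_cases h2 : i ∈ S ∪ J1
            · exact huF i h2
            · exact absurd (hu0 i h2 h3) hne)
          rw [hsum] at hTn
          have h1 : F3.card * sz E m ≤ Rg E m (κ m) * sz E m := by
            rw [hF3c]
            exact Nat.mul_le_mul_right _ hgR
          have h2 := Nat.mul_le_mul_left (m + E) h1
          refine le_of_mul_le_mul_left (?_ : (m + E) * _ ≤ (m + E) * _) (by omega)
          rw [Nat.mul_add] at hPe ⊢
          omega
        · have h1 := tot_next (E := E) hmem
          have h2 := dm_succ E e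
          show dm E e ≤ ∑ i, cn E ((A i).erase (u i))
          omega
      · -- few other points remain
        have hqB : g ≤ B.card := by
          refine hgR.trans (le_trans ?_ hq)
          unfold Qz
          have h1 : Rg E m (κ m) ≤ (e2 + 1 - L) * Rg E m (κ m) :=
            Nat.le_mul_of_pos_left _ (by omega)
          omega
        obtain ⟨B1, hB1, hB1c⟩ := Finset.exists_subset_card_eq hqB
        have hBn : ∀ i ∈ B, i ∉ S ∪ J1 := by
          intro i hi h
          rcases Finset.mem_union.1 h with h | h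
          · exact (hB i hi).1 h
          · exact ((hJm i).1 (hJ1 h)).2 hi
        obtain ⟨u, huF, hu3, hu0, hmem, hsum, hstep⟩ := stepF (hP m hm le_rfl) hm (e := e)
          (F3 := B1) hA hin hJ1S (fun i hi => ⟨hBn i (hB1 hi), by
            rw [(hB i (hB1 hi)).2]
            exact Finset.singleton_nonempty 1⟩) (by rw [← hTd, hB1c]; exact hgT)
          (by rw [← hTd]; omega)
        have hB1e : ∀ i ∈ B1, (A i).erase (u i) = ∅ := by
          intro i hi
          rw [hu3 i hi, (hB i (hB1 hi)).2, Finset.erase_singleton]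
        have hTL := tlv K E m κ L hP hR ι m e (fun i => (A i).erase (u i)) (B \ B1) le_rfl
          (fun i hi => ?_) (fun i _ => (Finset.erase_subset _ _).trans (hA i)) (fun _ => ?_)
          (by omega) ?_
        · refine hstep (hTL.mono (fun i hi => ?_) fun i s => le_rfl)
          rw [Finset.mem_compl, Finset.mem_sdiff, not_and, not_not]
          intro hiB
          rcases Finset.mem_union.1 hi with h | h
          · exact absurd h (hB i hiB).1
          · by_contra h3
            exact (Finset.mem_filter.1 h).2 (hu0 i (hBn i hiB) h3)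
        · rw [Finset.mem_sdiff] at hi
          show (A i).erase (u i) = {1}
          rw [hu0 i (hBn i hi.1) hi.2, erase_zero (hA i), (hB i hi.1).2]
        · -- the room
          have h1 : ∀ i ∈ (B \ B1)ᶜ, (m + E) * sz E (mx ((A i).erase (u i))) ≤
              (m - 1) * (if i ∈ S ∪ J1 then sz E (mx (A i)) else 0) +
                (m + E) * (if i ∈ J2 then sz E m else 0) := by
            intro i hi
            by_cases h2 : i ∈ S ∪ J1
            · rw [huF i h2, if_pos h2]
              exact (T_reg (hA i)).trans (Nat.le_add_right _ _)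
            · rw [if_neg h2, mul_zero, zero_add]
              by_cases h3 : i ∈ B
              · have h4 : i ∈ B1 := by
                  rw [Finset.mem_compl, Finset.mem_sdiff, not_and, not_not] at hi
                  exact hi h3
                rw [hB1e i h4, mx_empty, sz_zero, mul_zero]
                exact Nat.zero_le _
              · rw [Finset.mem_union, not_or] at h2
                rcases (A i).eq_empty_or_nonempty with h4 | h4
                · rw [h4, Finset.erase_empty, mx_empty, sz_zero, mul_zero]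
                  exact Nat.zero_le _
                · have h5 : i ∈ J2 := (hJ2m i).2 ⟨⟨(hJm i).2 ⟨h2.1, h3⟩, h2.2⟩, h4⟩
                  rw [if_pos h5]
                  exact Nat.mul_le_mul_left _
                    (sz_mono E (mx_le ((Finset.erase_subset _ _).trans (hA i))))
          have h2 : (m + E) * ∑ i ∈ (B \ B1)ᶜ, sz E (mx ((A i).erase (u i))) ≤
              (m - 1) * Nn E (e + 1) + (m + E) * (Rg E m (κ m) * sz E m) := by
            rw [Finset.mul_sum]
            refine (Finset.sum_le_sum h1).trans ((Finset.sum_le_sum_of_subset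
              (Finset.subset_univ _)).trans ?_)
            rw [Finset.sum_add_distrib, ← Finset.mul_sum, ← Finset.mul_sum, Finset.sum_ite_mem,
              Finset.sum_ite_mem, Finset.univ_inter, Finset.univ_inter, Finset.sum_const,
              smul_eq_mul]
            have hd : Disjoint S J1 := by
              rw [Finset.disjoint_left]
              intro i hi hi'
              exact hJ1S i hi' hi
            rw [Finset.sum_union hd, ← hTd]
            exact Nat.add_le_add (Nat.mul_le_mul_left _ (by omega))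
              (Nat.mul_le_mul_left _ (Nat.mul_le_mul_right _ (by omega)))
          show ∑ i ∈ (B \ B1)ᶜ, sz E (mx ((A i).erase (u i))) + κ m ≤ Nn E e
          refine le_of_mul_le_mul_left (?_ : (m + E) * _ ≤ (m + E) * _) (by omega)
          rw [Nat.mul_add] at hPe ⊢
          omega
        · have h1 := tot_next (E := E) hmem
          have h2 := dm_succ E e
          show dm E e ≤ ∑ i, cn E ((A i).erase (u i))
          omega

end Pool.Agent.H55.FX
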