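import Mathlib
import Pool.Agent.H55.FW.Fin
import Pool.Agent.H55.FX.Gg

set_option autoImplicit false

/-!
# Multiplicities at most three: final step
-/

namespace Pool.Agent.H55.FX

open Pool.Agent.W608.PR Pool.Agent.H55.FU Pool.Agent.H55.FV Pool.Agent.H55.FW

theorem GK (hfill : S_fill) (hb : S_base3x) {E L D e2 : ℕ} (hE : 1 ≤ E)
    (h : Base3x E (FE.Kc E 3) (FE.Kc E 2) (FE.Kc E 1) (cS E 3) (cT E 3) L D (Wk E) e2) :
    G ℂ (E + 1) 3 D := by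
  obtain ⟨hR, hph, hg⟩ := hb E (fun a => FE.Kc E a) (cS E 3) (cT E 3) L D (Wk E) e2 hE h
  exact ggx hfill (κ := fun a => FE.Kc E a) (κ' := fun _ => FE.Kc E 3) (fun a _ _ => tPK hE)
    (tPg_const (by norm_num) (tPK hE)) (fun _ _ _ _ _ => le_rfl) le_rfl le_rfl (tNS hE) (cNS hE)
    hR hph (by norm_num) hg

theorem GS (hfill : S_fill) (hb : S_base3x) (hG : S_hvG) (hk : S_kGm) {E L D e2 : ℕ} (hE : 1 ≤ E)
    (h : Base3x E (kS E 3) (kS E 2) (kS E 1) (cS E 3) (cT E 3) L D (Wm E 3) e2) :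
    G ℂ (E + 1) 3 D := by
  obtain ⟨hR, hph, hg⟩ := hb E (fun a => kS E a) (cS E 3) (cT E 3) L D (Wm E 3) e2 hE h
  exact ggx hfill (κ := fun a => kS E a) (κ' := kG E 3) (fun a ha _ => tPS hE ha)
    (hG E 3 hE (by norm_num)) (fun w w' h1 h2 h3 => (hk E 3 w w' (by omega) h2 h3).1)
    (hk E 3 3 3 (by norm_num) le_rfl le_rfl).2.le le_rfl (tNS hE) (cNS hE) hR
    hph (by norm_num) hg

/-- The table for multiplicities at most `3`. -/
def Tab (n D : ℕ) : Prop :=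
  (4 ≤ n ∧ 31 ≤ D) ∨ (5 ≤ n ∧ 22 ≤ D) ∨ (6 ≤ n ∧ 18 ≤ D) ∨ (7 ≤ n ∧ 16 ≤ D) ∨
    (8 ≤ n ∧ 15 ≤ D) ∨ (9 ≤ n ∧ 14 ≤ D) ∨ (10 ≤ n ∧ 13 ≤ D) ∨ (14 ≤ n ∧ 12 ≤ D) ∨
    (18 ≤ n ∧ 11 ≤ D) ∨ (24 ≤ n ∧ 10 ≤ D) ∨ (42 ≤ n ∧ 9 ≤ D) ∨ (312 ≤ n ∧ 8 ≤ D)

theorem G3' (hfill : S_fill) (hb : S_base3x) (hG : S_hvG) (hk : S_kGm) (r1 : S_row1)
    (r2 : S_row2) (r3 : S_row3) (r4 : S_row4) (r5 : S_row5) (r6 : S_row6) (r7 : S_row7)
    {E D : ℕ} (h : Tab (E + 1) D) : G ℂ E 3 D := by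
  have hE : 3 ≤ E := by
    unfold Tab at h
    omega
  obtain ⟨E, rfl⟩ : ∃ E', E = E' + 1 := ⟨E - 1, by omega⟩
  have hS : ∀ {L D' e2 : ℕ}, Base3x E (kS E 3) (kS E 2) (kS E 1) (cS E 3) (cT E 3) L D' (Wm E 3)
      e2 → D' ≤ D → G ℂ (E + 1) 3 D := fun h1 h2 => G_mono h2 (GS hfill hb hG hk (by omega) h1)
  have hK : ∀ {L D' e2 : ℕ}, Base3x E (FE.Kc E 3) (FE.Kc E 2) (FE.Kc E 1) (cS E 3) (cT E 3) L D'
      (Wk E) e2 → D' ≤ D → G ℂ (E + 1) 3 D := fun h1 h2 => G_mono h2 (GK hfill hb (by omega) h1)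
  unfold Tab at h
  rcases Nat.lt_or_ge E 14 with h14 | h14
  · rcases Nat.lt_or_ge E 11 with h12 | h12
    · have h2 : 2 ≤ E := by omega
      interval_cases E
      · exact hK (L := 4) (D' := 31) (e2 := 14) (r1 (2, 4, 31, 14) (by decide)) (by omega)
      · exact hK (L := 4) (D' := 22) (e2 := 12) (r1 (3, 4, 22, 12) (by decide)) (by omega)
      · exact hK (L := 4) (D' := 18) (e2 := 11) (r1 (4, 4, 18, 11) (by decide)) (by omega)
      · exact hK (L := 4) (D' := 16) (e2 := 11) (r1 (5, 4, 16, 11) (by decide)) (by omega)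
      · exact hK (L := 4) (D' := 15) (e2 := 11) (r1 (6, 4, 15, 11) (by decide)) (by omega)
      · exact hK (L := 4) (D' := 14) (e2 := 10) (r1 (7, 4, 14, 10) (by decide)) (by omega)
      · exact hK (L := 4) (D' := 13) (e2 := 10) (r1 (8, 4, 13, 10) (by decide)) (by omega)
      · exact hK (L := 4) (D' := 13) (e2 := 10) (r1 (9, 4, 13, 10) (by decide)) (by omega)
      · exact hK (L := 5) (D' := 13) (e2 := 10) (r1 (10, 5, 13, 10) (by decide)) (by omega)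
    · interval_cases E
      · exact hS (L := 5) (D' := 13) (e2 := 10) (r2 (11, 5, 13, 10) (by decide)) (by omega)
      · exact hS (L := 5) (D' := 12) (e2 := 10) (r2 (12, 5, 12, 10) (by decide)) (by omega)
      · exact hS (L := 5) (D' := 12) (e2 := 10) (r2 (13, 5, 12, 10) (by decide)) (by omega)
  · rcases Nat.lt_or_ge D 12 with h12 | h12
    · rcases Nat.lt_or_ge D 11 with h11 | h11
      · rcases Nat.lt_or_ge D 10 with h10 | h10
        · rcases Nat.lt_or_ge D 9 with h9 | h9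
          · exact hS (r7 E (by omega)) (by omega)
          · exact hS (r6 E (by omega)) h9
        · exact hS (r5 E (by omega)) h10
      · exact hS (r4 E (by omega)) h11
    · exact hS (r3 E h14) h12

end Pool.Agent.H55.FX
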