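import Mathlib
import Pool.Agent.H55.FX.Fin
import Pool.Agent.H40.FX.Base3x
import Pool.Agent.H40.FX.Rows
import Pool.Agent.H22.FX.Rows3
import Pool.Agent.H40.FW.Fill
import Pool.Agent.H1.FW.HvG

set_option autoImplicit false

/-!
# Multiplicities at most three: the sharper table
-/

namespace Pool.Agent.H55.FX

open Pool.Agent.W608.PR Pool.Agent.H55.FU Pool.Agent.H55.FV Pool.Agent.H55.FW

/-- Multiplicities at most `3`, `n = E + 1`. -/
theorem G3 {E D : ℕ} (h : Tab (E + 1) D) : G ℂ E 3 D :=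
  G3' Pool.Agent.H40.FW.fill Pool.Agent.H40.FX.base3x Pool.Agent.H1.FW.hvG Pool.Agent.H1.FW.kGm
    Pool.Agent.H40.FX.row1 Pool.Agent.H40.FX.row2 Pool.Agent.H22.FX.row3 Pool.Agent.H22.FX.row4
    Pool.Agent.H22.FX.row5 Pool.Agent.H22.FX.row6 Pool.Agent.H22.FX.row7 h

end Pool.Agent.H55.FX
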